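import Pool.Agent.Helper51.EA.Defs
import Pool.Agent.Helper5.RM.CONC

/-!
# Block EA-A1: concentration of the sum of the squares (plus sign analogue of `conc`)

Expand the square: `UU T = ∑_n d n n + ∑_{m ≠ n} rf T m * rf T n * d m n` with `d m n = ∑_l e (l (m + n) α)` over
`max (lo m) (lo n) ≤ l ≤ min (hi m) (hi n)`, `‖d m n‖² ≤ Gq (m + n)`, `Gq` from `completion` with `2 Y`.
-/

set_option autoImplicit false

namespace Pool.Agent.Helper51.EA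

open Finset Pool.Agent.Helper5.RM Pool.Agent.Helper5.RS

/-- the coefficient of the pair `(m, n)` -/
private noncomputable def h60_d (Lam : Finset ℕ) (lo hi : ℕ → ℕ) (α : ℝ) (m n : ℕ) : ℂ :=
  ∑ l ∈ Lam.filter (fun l => max (lo m) (lo n) ≤ l ∧ l ≤ min (hi m) (hi n)), e (l * ((m + n : ℕ) : ℝ) * α)

private theorem h60_d_norm (Lam : Finset ℕ) (H : ℕ) (hLam : ∀ l ∈ Lam, H ≤ l ∧ l < 2 * H)
    (lo hi : ℕ → ℕ) (α : ℝ) (m n : ℕ) : ‖h60_d Lam lo hi α m n‖ ≤ H := by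
  unfold h60_d
  refine (norm_sum_le _ _).trans ?_
  have h1 : ∀ l ∈ Lam.filter (fun l => max (lo m) (lo n) ≤ l ∧ l ≤ min (hi m) (hi n)),
      ‖e (l * ((m + n : ℕ) : ℝ) * α)‖ ≤ 1 := fun l _ => (norm_e _).le
  refine (Finset.sum_le_card_nsmul _ _ _ h1).trans ?_
  rw [nsmul_eq_mul, mul_one]
  have h2 : Lam.filter (fun l => max (lo m) (lo n) ≤ l ∧ l ≤ min (hi m) (hi n)) ⊆ Finset.Ico H (2 * H) := by
    intro l hl
    rw [Finset.mem_Ico]
    exact hLam l (Finset.mem_filter.1 hl).1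
  have h3 := Finset.card_le_card h2
  rw [Nat.card_Ico] at h3
  have h4 : (Lam.filter (fun l => max (lo m) (lo n) ≤ l ∧ l ≤ min (hi m) (hi n))).card ≤ H := by omega
  exact_mod_cast h4

private theorem h60_uexpand (Lam Nn : Finset ℕ) (lo hi : ℕ → ℕ) (α : ℝ) (T : Finset ℕ)
    (hN : ∀ n ∈ Nn, Squarefree n) :
    UU Lam Nn lo hi α T = ∑ n ∈ Nn, h60_d Lam lo hi α n n +
      ∑ q ∈ (Nn ×ˢ Nn).filter (fun q => q.1 ≠ q.2),
        (rf T q.1 : ℂ) * (rf T q.2 : ℂ) * h60_d Lam lo hi α q.1 q.2 := by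
  classical
  have h1 : UU Lam Nn lo hi α T = ∑ q ∈ Nn ×ˢ Nn,
      (rf T q.1 : ℂ) * (rf T q.2 : ℂ) * h60_d Lam lo hi α q.1 q.2 := by
    unfold UU
    have h2 : ∀ l ∈ Lam, (∑ n ∈ Nn.filter (fun n => lo n ≤ l ∧ l ≤ hi n), (rf T n : ℂ) * e (l * n * α)) ^ 2 =
        ∑ q ∈ Nn ×ˢ Nn, if (lo q.1 ≤ l ∧ l ≤ hi q.1) ∧ (lo q.2 ≤ l ∧ l ≤ hi q.2) then
          (rf T q.1 : ℂ) * (rf T q.2 : ℂ) * e (l * ((q.1 + q.2 : ℕ) : ℝ) * α) else 0 := by
      intro l _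
      rw [sq, Finset.sum_mul_sum, Finset.sum_filter]
      rw [Finset.sum_product]
      refine Finset.sum_congr rfl fun m _ => ?_
      rw [Finset.sum_filter]
      by_cases hm : lo m ≤ l ∧ l ≤ hi m
      · rw [if_pos hm]
        refine Finset.sum_congr rfl fun n _ => ?_
        by_cases hn : lo n ≤ l ∧ l ≤ hi n
        · rw [if_pos hn, if_pos ⟨hm, hn⟩]
          have h3 : e ((l : ℝ) * ((m + n : ℕ) : ℝ) * α) = e (l * m * α) * e (l * n * α) := by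
            rw [← e_add]
            congr 1
            push_cast
            ring
          rw [h3]
          ring
        · rw [if_neg hn, if_neg (fun hh => hn hh.2)]
      · rw [if_neg hm]
        symm
        refine Finset.sum_eq_zero fun n _ => ?_
        rw [if_neg (fun hh => hm hh.1)]
    rw [Finset.sum_congr rfl h2, Finset.sum_comm]
    refine Finset.sum_congr rfl fun q _ => ?_
    unfold h60_d
    rw [Finset.mul_sum, Finset.sum_filter]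
    refine Finset.sum_congr rfl fun l _ => ?_
    have h3 : ((lo q.1 ≤ l ∧ l ≤ hi q.1) ∧ (lo q.2 ≤ l ∧ l ≤ hi q.2)) ↔
        (max (lo q.1) (lo q.2) ≤ l ∧ l ≤ min (hi q.1) (hi q.2)) := by
      rw [max_le_iff, le_min_iff]
      tauto
    by_cases hc : (lo q.1 ≤ l ∧ l ≤ hi q.1) ∧ (lo q.2 ≤ l ∧ l ≤ hi q.2)
    · rw [if_pos hc, if_pos (h3.1 hc)]
    · rw [if_neg hc, if_neg (fun hh => hc (h3.2 hh))]
  have h2 : ∑ q ∈ (Nn ×ˢ Nn).filter (fun q => ¬ q.1 ≠ q.2),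
      (rf T q.1 : ℂ) * (rf T q.2 : ℂ) * h60_d Lam lo hi α q.1 q.2 = ∑ n ∈ Nn, h60_d Lam lo hi α n n := by
    symm
    refine Finset.sum_bij (fun n _ => (n, n)) ?_ ?_ ?_ ?_
    · intro n hn
      rw [Finset.mem_filter, Finset.mem_product]
      exact ⟨⟨hn, hn⟩, by simp⟩
    · intro a _ b _ hab
      exact (Prod.mk.injEq _ _ _ _ ▸ hab).1
    · rintro ⟨a, b⟩ hab
      rw [Finset.mem_filter, Finset.mem_product] at hab
      obtain ⟨⟨ha, hb⟩, hne⟩ := hab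
      simp only [ne_eq, not_not] at hne
      exact ⟨a, ha, by rw [hne]⟩
    · intro n hn
      have h4 : (rf T n : ℂ) * (rf T n : ℂ) = 1 := by
        rw [← Complex.ofReal_mul, rf_mul_self (hN n hn), Complex.ofReal_one]
      simp only
      rw [h4, one_mul]
  rw [h1, ← Finset.sum_filter_add_sum_filter_not (Nn ×ˢ Nn) (fun q => q.1 ≠ q.2), h2, add_comm]

/-- the Hoelder step, abstractly -/
private theorem h60_holder {ι : Type*} (s : Finset ι) (X : ι → ℝ) (a : ι → ℝ) (η A B : ℝ) (hη : 0 < η)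
    (hX : ∀ i ∈ s, 0 ≤ X i) (ha : ∀ i ∈ s, 0 ≤ a i)
    (h1 : ∑ i ∈ s, a i ^ (1 + η) * X i ≤ A) (h2 : ∑ i ∈ s, X i ≤ B) :
    ∑ i ∈ s, a i * X i ≤ A ^ (1 / (1 + η)) * B ^ (η / (1 + η)) := by
  have hp : 0 < 1 + η := by linarith
  have hpq : Real.HolderConjugate (1 + η) ((1 + η) / η) := by
    rw [Real.holderConjugate_iff]
    constructor
    · linarith
    · rw [inv_div]
      field_simp
  have h3 := Real.inner_le_Lp_mul_Lq_of_nonneg s hpq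
    (f := fun i => a i * X i ^ (1 / (1 + η))) (g := fun i => X i ^ (η / (1 + η)))
    (fun i hi => mul_nonneg (ha i hi) (Real.rpow_nonneg (hX i hi) _))
    (fun i hi => Real.rpow_nonneg (hX i hi) _)
  have h4 : ∑ i ∈ s, a i * X i ^ (1 / (1 + η)) * X i ^ (η / (1 + η)) = ∑ i ∈ s, a i * X i := by
    refine Finset.sum_congr rfl fun i hi => ?_
    rw [mul_assoc, ← Real.rpow_add_of_nonneg (hX i hi) (by positivity) (by positivity)]
    have : 1 / (1 + η) + η / (1 + η) = 1 := by field_simp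
    rw [this, Real.rpow_one]
  have h5 : ∑ i ∈ s, (a i * X i ^ (1 / (1 + η))) ^ (1 + η) = ∑ i ∈ s, a i ^ (1 + η) * X i := by
    refine Finset.sum_congr rfl fun i hi => ?_
    rw [Real.mul_rpow (ha i hi) (Real.rpow_nonneg (hX i hi) _), ← Real.rpow_mul (hX i hi)]
    have : 1 / (1 + η) * (1 + η) = 1 := by field_simp
    rw [this, Real.rpow_one]
  have h6 : ∑ i ∈ s, (X i ^ (η / (1 + η))) ^ ((1 + η) / η) = ∑ i ∈ s, X i := by
    refine Finset.sum_congr rfl fun i hi => ?_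
    rw [← Real.rpow_mul (hX i hi)]
    have : η / (1 + η) * ((1 + η) / η) = 1 := by field_simp
    rw [this, Real.rpow_one]
  rw [h4, h5, h6] at h3
  refine h3.trans ?_
  have e1 : 1 / ((1 + η) / η) = η / (1 + η) := by rw [one_div_div]
  rw [e1]
  have n1 : 0 ≤ ∑ i ∈ s, a i ^ (1 + η) * X i :=
    Finset.sum_nonneg fun i hi => mul_nonneg (Real.rpow_nonneg (ha i hi) _) (hX i hi)
  have n2 : 0 ≤ ∑ i ∈ s, X i := Finset.sum_nonneg hX
  exact mul_le_mul (Real.rpow_le_rpow n1 h1 (by positivity)) (Real.rpow_le_rpow n2 h2 (by positivity))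
    (Real.rpow_nonneg n2 _) (Real.rpow_nonneg (n1.trans h1) _)

private theorem h60_sub (Y : ℕ) (Nn : Finset ℕ) (hN : ∀ n ∈ Nn, 1 ≤ n ∧ n ≤ Y) (a b : ℕ) (ha : 1 ≤ a) :
    (Finset.Icc 1 Y).filter (fun g => g * a ∈ Nn ∧ g * b ∈ Nn) ⊆ Finset.Icc 1 (Y / max a b) := by
  intro g hg
  rw [Finset.mem_filter, Finset.mem_Icc] at hg
  obtain ⟨⟨hg1, -⟩, h1, h2⟩ := hg
  rw [Finset.mem_Icc]
  refine ⟨hg1, ?_⟩
  have hm : 0 < max a b := lt_of_lt_of_le ha (le_max_left _ _)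
  rw [Nat.le_div_iff_mul_le hm]
  rcases le_total a b with h | h
  · rw [max_eq_right h]
    exact (hN _ h2).2
  · rw [max_eq_left h]
    exact (hN _ h1).2

/-- one term of the sum over the pairs -/
private theorem h60_term (Y : ℕ) (Nn : Finset ℕ) (hN : ∀ n ∈ Nn, 1 ≤ n ∧ n ≤ Y) (c : ℕ → ℕ → ℂ)
    (Gq : ℕ → ℝ) (hG : ∀ m, 0 ≤ Gq m) (hc : ∀ m ∈ Nn, ∀ n ∈ Nn, ‖c m n‖ ^ 2 ≤ Gq (m + n)) (a b : ℕ)
    (ha : 1 ≤ a) :
    ‖Psi Nn Y c a b‖ ^ 2 ≤ (2 * Y / ((a + b : ℕ) : ℝ)) * ∑ g ∈ Finset.Icc 1 (2 * Y / (a + b)), Gq (g * (a + b)) := by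
  have h1 : ‖Psi Nn Y c a b‖ ≤ ∑ g ∈ (Finset.Icc 1 Y).filter (fun g => g * a ∈ Nn ∧ g * b ∈ Nn),
      ‖c (g * a) (g * b)‖ := norm_sum_le _ _
  have h2 : ‖Psi Nn Y c a b‖ ^ 2 ≤ ((Finset.Icc 1 Y).filter (fun g => g * a ∈ Nn ∧ g * b ∈ Nn)).card *
      ∑ g ∈ (Finset.Icc 1 Y).filter (fun g => g * a ∈ Nn ∧ g * b ∈ Nn), ‖c (g * a) (g * b)‖ ^ 2 := by
    refine (pow_le_pow_left₀ (norm_nonneg _) h1 2).trans ?_
    exact sq_sum_le_card_mul_sum_sq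
  have hab : 0 < a + b := by omega
  have hab' : (0 : ℝ) < ((a + b : ℕ) : ℝ) := by exact_mod_cast hab
  have h3 : ((Finset.Icc 1 Y).filter (fun g => g * a ∈ Nn ∧ g * b ∈ Nn)) ⊆ Finset.Icc 1 (2 * Y / (a + b)) := by
    intro g hg
    have h4 := h60_sub Y Nn hN a b ha hg
    rw [Finset.mem_Icc] at h4 ⊢
    refine ⟨h4.1, ?_⟩
    rw [Nat.le_div_iff_mul_le hab]
    have hm : 0 < max a b := lt_of_lt_of_le ha (le_max_left _ _)
    have h5 := (Nat.le_div_iff_mul_le hm).1 h4.2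
    have h6 : a + b ≤ 2 * max a b := by
      have := le_max_left a b
      have := le_max_right a b
      omega
    calc g * (a + b) ≤ g * (2 * max a b) := Nat.mul_le_mul_left _ h6
      _ = 2 * (g * max a b) := by ring
      _ ≤ 2 * Y := Nat.mul_le_mul_left _ h5
  have h4 : ∑ g ∈ (Finset.Icc 1 Y).filter (fun g => g * a ∈ Nn ∧ g * b ∈ Nn), ‖c (g * a) (g * b)‖ ^ 2 ≤
      ∑ g ∈ Finset.Icc 1 (2 * Y / (a + b)), Gq (g * (a + b)) := by
    refine (Finset.sum_le_sum (f := fun g => ‖c (g * a) (g * b)‖ ^ 2)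
      (g := fun g => Gq (g * (a + b))) ?_).trans
      (Finset.sum_le_sum_of_subset_of_nonneg h3 fun g _ _ => hG _)
    intro g hg
    rw [Finset.mem_filter] at hg
    obtain ⟨-, hA, hB⟩ := hg
    have := hc _ hA _ hB
    rwa [← Nat.mul_add] at this
  refine h2.trans ?_
  have h5 : (((Finset.Icc 1 Y).filter (fun g => g * a ∈ Nn ∧ g * b ∈ Nn)).card : ℝ) ≤ 2 * Y / ((a + b : ℕ) : ℝ) := by
    have h6 := Finset.card_le_card h3
    rw [Nat.card_Icc, Nat.add_sub_cancel] at h6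
    have h7 : (((Finset.Icc 1 Y).filter (fun g => g * a ∈ Nn ∧ g * b ∈ Nn)).card : ℝ) ≤ ((2 * Y / (a + b) : ℕ) : ℝ) := by
      exact_mod_cast h6
    refine h7.trans ?_
    have h8 := @Nat.cast_div_le ℝ _ _ _ (2 * Y) (a + b)
    refine h8.trans (le_of_eq ?_)
    push_cast
    ring
  exact mul_le_mul h5 h4 (Finset.sum_nonneg fun g _ => sq_nonneg _) (by positivity)

private theorem h60_psi_sum (Y : ℕ) (Nn : Finset ℕ) (hN : ∀ n ∈ Nn, 1 ≤ n ∧ n ≤ Y) (c : ℕ → ℕ → ℂ)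
    (Gq : ℕ → ℝ) (hG : ∀ m, 0 ≤ Gq m) (hc : ∀ m ∈ Nn, ∀ n ∈ Nn, ‖c m n‖ ^ 2 ≤ Gq (m + n)) :
    ∑ q ∈ cp Y, ‖Psi Nn Y c q.1 q.2‖ ^ 2 ≤
      2 * Y * ∑ m ∈ Finset.Icc 1 (2 * Y), (m.divisors.card : ℝ) * Gq m := by
  classical
  set K : ℕ → ℝ := fun h => ∑ g ∈ Finset.Icc 1 (2 * Y / h), Gq (g * h) with hK
  have hK0 : ∀ h, 0 ≤ K h := fun h => Finset.sum_nonneg fun g _ => hG _
  -- the terms
  have h1 : ∑ q ∈ cp Y, ‖Psi Nn Y c q.1 q.2‖ ^ 2 ≤
      ∑ q ∈ cp Y, (2 * Y / ((q.1 + q.2 : ℕ) : ℝ)) * K (q.1 + q.2) := by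
    refine Finset.sum_le_sum fun q hq => ?_
    rw [cp, Finset.mem_filter, Finset.mem_product, Finset.mem_Icc, Finset.mem_Icc] at hq
    exact h60_term Y Nn hN c Gq hG hc q.1 q.2 hq.1.1.1
  refine h1.trans ?_
  have hmaps : ∀ q ∈ cp Y, q.1 + q.2 ∈ Finset.Icc 1 (2 * Y) := by
    intro q hq
    rw [cp, Finset.mem_filter, Finset.mem_product, Finset.mem_Icc, Finset.mem_Icc] at hq
    rw [Finset.mem_Icc]
    omega
  rw [← Finset.sum_fiberwise_of_maps_to hmaps]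
  have h2 : ∀ h ∈ Finset.Icc 1 (2 * Y), ∑ q ∈ (cp Y).filter (fun q => q.1 + q.2 = h),
      (2 * Y / ((q.1 + q.2 : ℕ) : ℝ)) * K (q.1 + q.2) ≤ 2 * Y * K h := by
    intro h hh
    rw [Finset.mem_Icc] at hh
    have hh0 : (0 : ℝ) < h := by exact_mod_cast hh.1
    have h3 : ∑ q ∈ (cp Y).filter (fun q => q.1 + q.2 = h), (2 * Y / ((q.1 + q.2 : ℕ) : ℝ)) * K (q.1 + q.2) =
        ((cp Y).filter (fun q => q.1 + q.2 = h)).card * ((2 * Y / (h : ℝ)) * K h) := by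
      rw [Finset.sum_congr rfl (g := fun _ => (2 * Y / (h : ℝ)) * K h), Finset.sum_const, nsmul_eq_mul]
      intro q hq
      rw [Finset.mem_filter] at hq
      rw [hq.2]
    have h4 : ((cp Y).filter (fun q => q.1 + q.2 = h)).card ≤ h := by
      have h5 : ((cp Y).filter (fun q => q.1 + q.2 = h)).card ≤ (Finset.Icc 1 h).card := by
        refine Finset.card_le_card_of_injOn (fun q => q.1) ?_ ?_
        · intro q hq
          rw [Finset.mem_coe, Finset.mem_filter, cp, Finset.mem_filter, Finset.mem_product, Finset.mem_Icc,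
            Finset.mem_Icc] at hq
          rw [Finset.mem_coe, Finset.mem_Icc]
          change 1 ≤ q.1 ∧ q.1 ≤ h
          omega
        · intro x hx y hy hxy
          rw [Finset.mem_coe, Finset.mem_filter] at hx hy
          have hxy' : x.1 = y.1 := hxy
          exact Prod.ext hxy' (by omega)
      rw [Nat.card_Icc, Nat.add_sub_cancel] at h5
      exact h5
    have h6 : (((cp Y).filter (fun q => q.1 + q.2 = h)).card : ℝ) ≤ h := by exact_mod_cast h4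
    rw [h3]
    calc (((cp Y).filter (fun q => q.1 + q.2 = h)).card : ℝ) * ((2 * Y / (h : ℝ)) * K h)
        ≤ h * ((2 * Y / (h : ℝ)) * K h) := by
          refine mul_le_mul_of_nonneg_right h6 (mul_nonneg (by positivity) (hK0 h))
      _ = 2 * Y * K h := by field_simp
  refine (Finset.sum_le_sum h2).trans ?_
  rw [← Finset.mul_sum]
  refine mul_le_mul_of_nonneg_left ?_ (by positivity)
  -- regroup by the product
  have h3 : ∑ h ∈ Finset.Icc 1 (2 * Y), K h =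
      ∑ x ∈ (Finset.Icc 1 (2 * Y)).sigma (fun h => Finset.Icc 1 (2 * Y / h)), Gq (x.2 * x.1) := by
    rw [Finset.sum_sigma]
  rw [h3]
  have hmaps2 : ∀ x ∈ (Finset.Icc 1 (2 * Y)).sigma (fun h => Finset.Icc 1 (2 * Y / h)), x.2 * x.1 ∈ Finset.Icc 1 (2 * Y) := by
    intro x hx
    rw [Finset.mem_sigma, Finset.mem_Icc, Finset.mem_Icc] at hx
    obtain ⟨⟨h4, -⟩, h5, h6⟩ := hx
    rw [Finset.mem_Icc]
    exact ⟨Nat.mul_pos h5 h4, (Nat.le_div_iff_mul_le h4).1 h6⟩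
  rw [← Finset.sum_fiberwise_of_maps_to hmaps2]
  refine Finset.sum_le_sum fun m hm => ?_
  have hm0 : m ≠ 0 := by
    rw [Finset.mem_Icc] at hm
    omega
  have h4 : ∑ x ∈ ((Finset.Icc 1 (2 * Y)).sigma (fun h => Finset.Icc 1 (2 * Y / h))).filter (fun x => x.2 * x.1 = m),
      Gq (x.2 * x.1) =
      (((Finset.Icc 1 (2 * Y)).sigma (fun h => Finset.Icc 1 (2 * Y / h))).filter (fun x => x.2 * x.1 = m)).card * Gq m := by
    rw [Finset.sum_congr rfl (g := fun _ => Gq m), Finset.sum_const, nsmul_eq_mul]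
    intro x hx
    rw [Finset.mem_filter] at hx
    rw [hx.2]
  rw [h4]
  refine mul_le_mul_of_nonneg_right ?_ (hG m)
  norm_cast
  refine Finset.card_le_card_of_injOn (fun x => x.1) ?_ ?_
  · intro x hx
    rw [Finset.mem_coe, Finset.mem_filter] at hx
    rw [Finset.mem_coe, Nat.mem_divisors]
    exact ⟨⟨x.2, by rw [← hx.2]; ring⟩, hm0⟩
  · intro x hx y hy hxy
    rw [Finset.mem_coe, Finset.mem_filter, Finset.mem_sigma, Finset.mem_Icc] at hx hy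
    obtain ⟨⟨⟨hx1, -⟩, -⟩, hx4⟩ := hx
    obtain ⟨-, hy4⟩ := hy
    have hxy' : x.1 = y.1 := hxy
    have h5 : x.2 * x.1 = y.2 * x.1 := by
      rw [hx4, hxy', hy4]
    have h6 : x.2 = y.2 := Nat.eq_of_mul_eq_mul_right hx1 h5
    rcases x with ⟨x1, x2⟩
    rcases y with ⟨y1, y2⟩
    simp only at hxy' h6
    subst hxy'
    subst h6
    rfl

private theorem h60_mn2 {M : ℝ} (x : ℝ) : mn (2 * M) x ≤ 2 * mn M x := by
  unfold mn
  split_ifs with h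
  · exact le_rfl
  · have hn : 0 < nd x := lt_of_le_of_ne (nd_nonneg x) (Ne.symm h)
    rcases le_total M (1 / (2 * nd x)) with h1 | h1
    · rw [min_eq_left h1]
      exact min_le_left _ _
    · rw [min_eq_right h1]
      have : 0 ≤ 1 / (2 * nd x) := by positivity
      exact (min_le_right _ _).trans (by linarith)

/-- `(x + y)^(2k) ≤ 4^k (x^(2k) + y^(2k)) / 2` -/
private theorem h60_add_pow (k : ℕ) (hk : 1 ≤ k) (x y : ℝ) (hx : 0 ≤ x) (hy : 0 ≤ y) :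
    (x + y) ^ (2 * k) ≤ 4 ^ k * (x ^ (2 * k) + y ^ (2 * k)) / 2 := by
  have h1 := add_pow_le hx hy (2 * k)
  have h2 : (4 : ℝ) ^ k = 2 ^ (2 * k - 1) * 2 := by
    rw [← pow_succ]
    have : 2 * k - 1 + 1 = 2 * k := by omega
    rw [this, pow_mul]
    norm_num
  rw [h2]
  refine h1.trans (le_of_eq ?_)
  ring

theorem conc_plus (k : ℕ) (hk : 1 ≤ k) (S : Finset ℕ) (H Y : ℕ) (hH : 1 ≤ H) (hY : 1 ≤ Y)
    (Lam Nn : Finset ℕ) (lo hi : ℕ → ℕ) (α γ η L0 : ℝ) (w : ℕ)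
    (hLam : ∀ l ∈ Lam, H ≤ l ∧ l < 2 * H)
    (hN : ∀ n ∈ Nn, 1 ≤ n ∧ n ≤ Y ∧ Squarefree n ∧ n.primeFactors ⊆ S)
    (hγ : Y + 2 * ∑ j ∈ Finset.Ico 1 H, mn Y (j * α) ≤ H * Y * γ) (hγ1 : γ ≤ 1)
    (hη : 0 < η) (hη1 : η ≤ 1) (hw : (4 * (k : ℝ)) ^ (1 + η) ≤ w)
    (hL1 : 1 + Real.log H ≤ L0) (hL2 : 1 + Real.log Y ≤ L0) :
    av S (fun T => ‖UU Lam Nn lo hi α T‖ ^ (2 * k)) ≤
      (1000 * ((H : ℝ) * Y) ^ 2 * L0 ^ (2 * w + 5) * γ ^ (η / 4)) ^ k := by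
  classical
  have hlY : 0 ≤ Real.log Y := Real.log_natCast_nonneg Y
  have hL0 : 1 ≤ L0 := by linarith
  have hL0' : 0 ≤ L0 := by linarith
  have hH0 : (0 : ℝ) < H := by exact_mod_cast hH
  have hY0 : (0 : ℝ) < Y := by exact_mod_cast hY
  have hmn : 0 ≤ ∑ j ∈ Finset.Ico 1 H, mn Y (j * α) :=
    Finset.sum_nonneg fun j _ => mn_nonneg hY0.le _
  have hγ0 : 0 < γ := by
    by_contra hneg
    push Not at hneg
    have : (H : ℝ) * Y * γ ≤ 0 := mul_nonpos_of_nonneg_of_nonpos (by positivity) hneg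
    linarith
  have hγ2 : ((2 * Y : ℕ) : ℝ) + 2 * ∑ j ∈ Finset.Ico 1 H, mn ((2 * Y : ℕ) : ℝ) (j * α) ≤ H * ((2 * Y : ℕ) : ℝ) * γ := by
    have h1 : ∑ j ∈ Finset.Ico 1 H, mn ((2 * Y : ℕ) : ℝ) (j * α) ≤ ∑ j ∈ Finset.Ico 1 H, 2 * mn (Y : ℝ) (j * α) := by
      refine Finset.sum_le_sum fun j _ => ?_
      push_cast
      exact h60_mn2 _
    rw [← Finset.mul_sum] at h1
    push_cast at h1 ⊢
    linarith
  obtain ⟨Gq, hG0, hG1, hG2, hG3⟩ := completion Lam H (2 * Y) hH hLam α γ L0 hL1 hγ2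
  set c : ℕ → ℕ → ℂ := h60_d Lam lo hi α with hc
  have hcH : ∀ m ∈ Nn, ∀ n ∈ Nn, ‖c m n‖ ≤ H := fun m _ n _ => h60_d_norm Lam H hLam lo hi α m n
  have hcG : ∀ m ∈ Nn, ∀ n ∈ Nn, ‖c m n‖ ^ 2 ≤ Gq (m + n) := by
    intro m _ n _
    exact hG3 (m + n) (max (lo m) (lo n)) (min (hi m) (hi n))
  have hN2 : ∀ n ∈ Nn, 1 ≤ n ∧ n ≤ Y := fun n hn => ⟨(hN n hn).1, (hN n hn).2.1⟩
  have hN3 : ∀ n ∈ Nn, 1 ≤ n ∧ n ≤ Y ∧ Squarefree n := fun n hn => ⟨(hN n hn).1, (hN n hn).2.1, (hN n hn).2.2.1⟩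
  set Z : ℝ := 102 * ((H : ℝ) * Y) ^ 2 * L0 ^ (2 * w + 5) with hZ
  have hZ0 : 0 < Z := by
    have : 0 < L0 := by linarith
    positivity
  have hZL : 102 * ((H : ℝ) * Y) ^ 2 * L0 ^ 5 ≤ Z := by
    have h1 : L0 ^ 5 ≤ L0 ^ (2 * w + 5) := pow_le_pow_right₀ hL0 (by omega)
    rw [hZ]
    gcongr
  -- the diagonal
  set Dg : ℂ := ∑ n ∈ Nn, c n n with hDg
  have hdiag : ‖Dg‖ ^ (2 * k) ≤ (Z * γ ^ (η / 4)) ^ k := by
    rw [pow_mul]
    refine pow_le_pow_left₀ (sq_nonneg _) ?_ k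
    have h1 : ‖Dg‖ ≤ ∑ n ∈ Nn, ‖c n n‖ := norm_sum_le _ _
    have h2 : ‖Dg‖ ^ 2 ≤ Nn.card * ∑ n ∈ Nn, ‖c n n‖ ^ 2 :=
      (pow_le_pow_left₀ (norm_nonneg _) h1 2).trans sq_sum_le_card_mul_sum_sq
    have h3 : (Nn.card : ℝ) ≤ Y := by
      have h4 : Nn ⊆ Finset.Icc 1 Y := fun n hn => Finset.mem_Icc.2 (hN2 n hn)
      have h5 := Finset.card_le_card h4
      rw [Nat.card_Icc, Nat.add_sub_cancel] at h5
      exact_mod_cast h5
    have h4 : ∑ n ∈ Nn, ‖c n n‖ ^ 2 ≤ ∑ m ∈ Finset.Icc 1 (2 * Y), Gq m := by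
      have h5 : ∑ n ∈ Nn, ‖c n n‖ ^ 2 ≤ ∑ n ∈ Nn, Gq (n + n) :=
        Finset.sum_le_sum fun n hn => hcG n hn n hn
      refine h5.trans ?_
      have h6 : ∑ n ∈ Nn, Gq (n + n) = ∑ m ∈ Nn.image (fun n => n + n), Gq m := by
        rw [Finset.sum_image]
        intro x _ y _ hxy
        have : x + x = y + y := hxy
        omega
      rw [h6]
      refine Finset.sum_le_sum_of_subset_of_nonneg ?_ fun m _ _ => hG0 m
      intro m hm
      rw [Finset.mem_image] at hm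
      obtain ⟨n, hn, rfl⟩ := hm
      have := hN2 n hn
      rw [Finset.mem_Icc]
      omega
    have h5 : γ ≤ γ ^ (η / 4) := by
      have := Real.rpow_le_rpow_of_exponent_ge hγ0 hγ1 (show η / 4 ≤ 1 by linarith)
      rwa [Real.rpow_one] at this
    have h6 : L0 ^ 2 ≤ L0 ^ 5 := pow_le_pow_right₀ hL0 (by norm_num)
    calc ‖Dg‖ ^ 2 ≤ Nn.card * ∑ n ∈ Nn, ‖c n n‖ ^ 2 := h2
      _ ≤ Y * (9 * L0 ^ 2 * H ^ 2 * ((2 * Y : ℕ) : ℝ) * γ) := by
          refine mul_le_mul h3 (h4.trans hG2) (Finset.sum_nonneg fun n _ => sq_nonneg _) hY0.le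
      _ = 18 * ((H : ℝ) * Y) ^ 2 * L0 ^ 2 * γ := by push_cast; ring
      _ ≤ 102 * ((H : ℝ) * Y) ^ 2 * L0 ^ 5 * γ ^ (η / 4) := by
          gcongr
          norm_num
      _ ≤ Z * γ ^ (η / 4) := mul_le_mul_of_nonneg_right hZL (Real.rpow_nonneg hγ0.le _)
  -- the moment of the rest
  set Of : Finset ℕ → ℂ := fun T => ∑ q ∈ cp Y, (rf T q.1 : ℂ) * (rf T q.2 : ℂ) * Psi Nn Y c q.1 q.2 with hOf
  have hexp : ∀ T, UU Lam Nn lo hi α T = Dg + Of T := by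
    intro T
    rw [h60_uexpand Lam Nn lo hi α T (fun n hn => (hN n hn).2.2.1), hOf]
    simp only
    rw [← regroup Y Nn hN3 c T]
  have hmom := pair_moment k hk S (cp Y) (fun q => Psi Nn Y c q.1 q.2)
    (by
      intro q hq
      rw [cp, Finset.mem_filter] at hq
      exact ⟨hq.2.2.1, hq.2.2.2.1, hq.2.2.2.2⟩)
    (by
      intro q hq hne
      rw [cp, Finset.mem_filter] at hq
      have h1 : ((Finset.Icc 1 Y).filter (fun g => g * q.1 ∈ Nn ∧ g * q.2 ∈ Nn)).Nonempty := by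
        rw [Finset.nonempty_iff_ne_empty]
        intro h0
        apply hne
        simp only [Psi]
        rw [h0, Finset.sum_empty]
      obtain ⟨g, hg⟩ := h1
      rw [Finset.mem_filter] at hg
      have h2 := hN _ hg.2.1
      have h3 := hN _ hg.2.2
      refine ⟨?_, ?_⟩
      · exact (Nat.primeFactors_mono (dvd_mul_left q.1 g) (by omega)).trans h2.2.2.2
      · exact (Nat.primeFactors_mono (dvd_mul_left q.2 g) (by omega)).trans h3.2.2.2)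
  have hoff : av S (fun T => ‖Of T‖ ^ (2 * k)) ≤ (Z * γ ^ (η / 4)) ^ k := by
    refine hmom.trans ?_
    refine pow_le_pow_left₀ (Finset.sum_nonneg fun q _ => by positivity) ?_ k
    -- first factor
    have hpsi : ∀ q ∈ cp Y, ‖Psi Nn Y c q.1 q.2‖ ^ 2 ≤ ((H : ℝ) * Y) ^ 2 / ((max q.1 q.2 : ℕ) : ℝ) ^ 2 := by
      intro q hq
      rw [cp, Finset.mem_filter, Finset.mem_product, Finset.mem_Icc, Finset.mem_Icc] at hq
      have h1 := psi_le Y Nn hN2 c H hH0.le hcH q.1 q.2 hq.1.1.1 hq.1.2.1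
      have hm : (0 : ℝ) < ((max q.1 q.2 : ℕ) : ℝ) := by
        have : 0 < max q.1 q.2 := lt_of_lt_of_le hq.1.1.1 (le_max_left _ _)
        exact_mod_cast this
      rw [le_div_iff₀ (by positivity), ← mul_pow]
      refine pow_le_pow_left₀ (by positivity) ?_ 2
      rw [mul_comm (H : ℝ)]
      exact h1
    have hF1 : ∑ q ∈ cp Y, ((4 * (k : ℝ)) ^ (om q.1 + om q.2)) ^ (1 + η) * ‖Psi Nn Y c q.1 q.2‖ ^ 2 ≤ Z := by
      have h1 : ∀ q ∈ cp Y, ((4 * (k : ℝ)) ^ (om q.1 + om q.2)) ^ (1 + η) * ‖Psi Nn Y c q.1 q.2‖ ^ 2 ≤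
          ((H : ℝ) * Y) ^ 2 * ((w : ℝ) ^ (om q.1 + om q.2) / ((max q.1 q.2 : ℕ) : ℝ) ^ 2) := by
        intro q hq
        have h2 : ((4 * (k : ℝ)) ^ (om q.1 + om q.2)) ^ (1 + η) ≤ (w : ℝ) ^ (om q.1 + om q.2) := by
          rw [← Real.rpow_natCast, ← Real.rpow_mul (by positivity), mul_comm (((om q.1 + om q.2 : ℕ)) : ℝ),
            Real.rpow_mul (by positivity), Real.rpow_natCast]
          exact pow_le_pow_left₀ (by positivity) hw _
        calc _ ≤ (w : ℝ) ^ (om q.1 + om q.2) * (((H : ℝ) * Y) ^ 2 / ((max q.1 q.2 : ℕ) : ℝ) ^ 2) :=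
              mul_le_mul h2 (hpsi q hq) (by positivity) (by positivity)
          _ = _ := by ring
      refine (Finset.sum_le_sum h1).trans ?_
      rw [← Finset.mul_sum]
      have h3 := omega_pairs w Y hY
      have h4 : (1 + Real.log Y) ^ (2 * w) ≤ L0 ^ (2 * w) := pow_le_pow_left₀ (by linarith) hL2 _
      have h5 : L0 ^ (2 * w) ≤ L0 ^ (2 * w + 5) := pow_le_pow_right₀ hL0 (by omega)
      calc ((H : ℝ) * Y) ^ 2 * _ ≤ ((H : ℝ) * Y) ^ 2 * (2 * (1 + Real.log Y) ^ (2 * w)) :=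
            mul_le_mul_of_nonneg_left h3 (by positivity)
        _ ≤ ((H : ℝ) * Y) ^ 2 * (102 * L0 ^ (2 * w + 5)) := by
            refine mul_le_mul_of_nonneg_left ?_ (by positivity)
            have : 0 ≤ L0 ^ (2 * w + 5) := by positivity
            linarith
        _ = _ := by rw [hZ]; ring
    -- second factor
    have hF2 : ∑ q ∈ cp Y, ‖Psi Nn Y c q.1 q.2‖ ^ 2 ≤ Z * γ ^ (1 / 2 : ℝ) := by
      have h1 := h60_psi_sum Y Nn hN2 c Gq hG0 hcG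
      set D : ℝ := ∑ m ∈ Finset.Icc 1 (2 * Y), (m.divisors.card : ℝ) * Gq m with hD
      have hD0 : 0 ≤ D := Finset.sum_nonneg fun m _ => mul_nonneg (Nat.cast_nonneg _) (hG0 m)
      have hl2 : 1 + Real.log ((2 * Y : ℕ) : ℝ) ≤ 2 * L0 := by
        push_cast
        rw [Real.log_mul (by norm_num) hY0.ne']
        have := Real.log_two_lt_d9
        linarith
      have hl3 : 0 ≤ 1 + Real.log ((2 * Y : ℕ) : ℝ) := by
        have := Real.log_natCast_nonneg (2 * Y)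
        linarith
      have h2 : D ^ 2 ≤ (2 * Y * (2 * L0) ^ 3) * ((9 * L0 ^ 2 * H ^ 2) * (9 * L0 ^ 2 * H ^ 2 * (2 * Y) * γ)) := by
        have h3 : D ^ 2 ≤ (∑ m ∈ Finset.Icc 1 (2 * Y), (m.divisors.card : ℝ) ^ 2) * ∑ m ∈ Finset.Icc 1 (2 * Y), Gq m ^ 2 :=
          Finset.sum_mul_sq_le_sq_mul_sq _ _ _
        have h4 : ∑ m ∈ Finset.Icc 1 (2 * Y), (m.divisors.card : ℝ) ^ 2 ≤ 2 * Y * (2 * L0) ^ 3 := by
          refine (divisor_sq (2 * Y) (by omega)).trans ?_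
          have h5 : (1 + Real.log ((2 * Y : ℕ) : ℝ)) ^ 3 ≤ (2 * L0) ^ 3 := pow_le_pow_left₀ hl3 hl2 3
          have h6 : ((2 * Y : ℕ) : ℝ) = 2 * Y := by push_cast; ring
          calc ((2 * Y : ℕ) : ℝ) * (1 + Real.log ((2 * Y : ℕ) : ℝ)) ^ 3 ≤ ((2 * Y : ℕ) : ℝ) * (2 * L0) ^ 3 :=
                mul_le_mul_of_nonneg_left h5 (Nat.cast_nonneg _)
            _ = _ := by rw [h6]
        have h5 : ∑ m ∈ Finset.Icc 1 (2 * Y), Gq m ^ 2 ≤ (9 * L0 ^ 2 * H ^ 2) * (9 * L0 ^ 2 * H ^ 2 * (2 * Y) * γ) := by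
          calc ∑ m ∈ Finset.Icc 1 (2 * Y), Gq m ^ 2 ≤ ∑ m ∈ Finset.Icc 1 (2 * Y), (9 * L0 ^ 2 * H ^ 2) * Gq m := by
                refine Finset.sum_le_sum fun m _ => ?_
                rw [sq]
                exact mul_le_mul_of_nonneg_right (hG1 m) (hG0 m)
            _ = (9 * L0 ^ 2 * H ^ 2) * ∑ m ∈ Finset.Icc 1 (2 * Y), Gq m := by rw [Finset.mul_sum]
            _ ≤ _ := by
                refine mul_le_mul_of_nonneg_left (hG2.trans (le_of_eq ?_)) (by positivity)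
                push_cast
                ring
        exact h3.trans (mul_le_mul h4 h5 (Finset.sum_nonneg fun m _ => sq_nonneg _) (by positivity))
      have hg : γ ^ (1 / 2 : ℝ) * γ ^ (1 / 2 : ℝ) = γ := by
        rw [← Real.rpow_add hγ0]
        norm_num
      have hg0 : 0 ≤ γ ^ (1 / 2 : ℝ) := Real.rpow_nonneg hγ0.le _
      have h3 : D ≤ 51 * L0 ^ 4 * H ^ 2 * Y * γ ^ (1 / 2 : ℝ) := by
        refine le_of_sq_le_sq ?_ (by positivity)
        refine h2.trans ?_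
        have e1 : (51 * L0 ^ 4 * H ^ 2 * Y * γ ^ (1 / 2 : ℝ)) ^ 2 =
            (2601 * L0 ^ 8 * H ^ 4 * Y ^ 2) * (γ ^ (1 / 2 : ℝ) * γ ^ (1 / 2 : ℝ)) := by
          ring
        rw [e1, hg]
        have e2 : (2 * Y * (2 * L0) ^ 3) * ((9 * L0 ^ 2 * H ^ 2) * (9 * L0 ^ 2 * H ^ 2 * (2 * Y) * γ)) =
            (2592 * L0 ^ 7 * H ^ 4 * Y ^ 2) * γ := by ring
        rw [e2]
        refine mul_le_mul_of_nonneg_right ?_ hγ0.le
        have h7 : L0 ^ 7 ≤ L0 ^ 8 := pow_le_pow_right₀ hL0 (by norm_num)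
        gcongr
        norm_num
      calc ∑ q ∈ cp Y, ‖Psi Nn Y c q.1 q.2‖ ^ 2 ≤ 2 * Y * D := h1
        _ ≤ 2 * Y * (51 * L0 ^ 4 * H ^ 2 * Y * γ ^ (1 / 2 : ℝ)) :=
            mul_le_mul_of_nonneg_left h3 (by positivity)
        _ = 102 * ((H : ℝ) * Y) ^ 2 * L0 ^ 4 * γ ^ (1 / 2 : ℝ) := by ring
        _ ≤ 102 * ((H : ℝ) * Y) ^ 2 * L0 ^ 5 * γ ^ (1 / 2 : ℝ) := by
            have : L0 ^ 4 ≤ L0 ^ 5 := pow_le_pow_right₀ hL0 (by norm_num)
            gcongr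
        _ ≤ _ := mul_le_mul_of_nonneg_right hZL hg0
    have hH2 := h60_holder (cp Y) (fun q => ‖Psi Nn Y c q.1 q.2‖ ^ 2)
      (fun q => (4 * (k : ℝ)) ^ (om q.1 + om q.2)) η _ _ hη (fun q _ => by positivity)
      (fun q _ => by positivity) hF1 hF2
    refine hH2.trans ?_
    rw [Real.mul_rpow hZ0.le (Real.rpow_nonneg hγ0.le _), ← Real.rpow_mul hγ0.le, ← mul_assoc,
      ← Real.rpow_add hZ0]
    have e1 : 1 / (1 + η) + η / (1 + η) = 1 := by field_simp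
    rw [e1, Real.rpow_one]
    refine mul_le_mul_of_nonneg_left ?_ hZ0.le
    refine Real.rpow_le_rpow_of_exponent_ge hγ0 hγ1 ?_
    rw [div_mul_div_comm, div_le_div_iff₀ (by norm_num) (by positivity)]
    nlinarith
  -- together
  have hsum : av S (fun T => ‖UU Lam Nn lo hi α T‖ ^ (2 * k)) ≤
      4 ^ k / 2 * (‖Dg‖ ^ (2 * k) + av S (fun T => ‖Of T‖ ^ (2 * k))) := by
    unfold av
    have h1 : ∑ T ∈ S.powerset, ‖UU Lam Nn lo hi α T‖ ^ (2 * k) ≤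
        ∑ T ∈ S.powerset, (4 ^ k / 2 * (‖Dg‖ ^ (2 * k) + ‖Of T‖ ^ (2 * k))) := by
      refine Finset.sum_le_sum fun T _ => ?_
      rw [hexp T]
      refine (pow_le_pow_left₀ (norm_nonneg _) (norm_add_le _ _) (2 * k)).trans ?_
      refine (h60_add_pow k hk _ _ (norm_nonneg _) (norm_nonneg _)).trans (le_of_eq ?_)
      ring
    rw [← Finset.mul_sum, Finset.sum_add_distrib, Finset.sum_const, Finset.card_powerset, nsmul_eq_mul] at h1
    have h2 : (0 : ℝ) < 2 ^ S.card := by positivity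
    rw [div_le_iff₀ h2]
    refine h1.trans (le_of_eq ?_)
    push_cast
    field_simp
  refine hsum.trans ?_
  have hW : 0 ≤ (Z * γ ^ (η / 4)) ^ k := pow_nonneg (mul_nonneg hZ0.le (Real.rpow_nonneg hγ0.le _)) k
  calc 4 ^ k / 2 * (‖Dg‖ ^ (2 * k) + av S (fun T => ‖Of T‖ ^ (2 * k)))
      ≤ 4 ^ k / 2 * ((Z * γ ^ (η / 4)) ^ k + (Z * γ ^ (η / 4)) ^ k) := by
        refine mul_le_mul_of_nonneg_left (add_le_add hdiag hoff) (by positivity)
    _ = (4 * (Z * γ ^ (η / 4))) ^ k := by rw [mul_pow 4]; ring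
    _ ≤ _ := by
        refine pow_le_pow_left₀ (mul_nonneg (by norm_num) (mul_nonneg hZ0.le (Real.rpow_nonneg hγ0.le _))) ?_ k
        rw [hZ]
        have h0 : 0 ≤ ((H : ℝ) * Y) ^ 2 * L0 ^ (2 * w + 5) * γ ^ (η / 4) :=
          mul_nonneg (by positivity) (Real.rpow_nonneg hγ0.le _)
        nlinarith

end Pool.Agent.Helper51.EA
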