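import Pool.Agent.Helper51.EA.Defs
import Pool.Agent.Helper5.RM.CONC

/-!
# Block EA-V1: concentration of a bilinear form with general coefficients

The diagonal and the off diagonal part are bounded by the hypotheses `hd`, `hP`; moments from `regroup`, `pair_moment`, Hoelder.
-/

set_option autoImplicit false

namespace Pool.Agent.Helper51.EA

open Finset Pool.Agent.Helper5.RM Pool.Agent.Helper5.RS

private theorem v1_expand (Nn : Finset ℕ) (c : ℕ → ℕ → ℂ) (T : Finset ℕ) (hN : ∀ n ∈ Nn, Squarefree n) :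
    ∑ m ∈ Nn, ∑ n ∈ Nn, (rf T m : ℂ) * (rf T n : ℂ) * c m n = ∑ n ∈ Nn, c n n +
      ∑ q ∈ (Nn ×ˢ Nn).filter (fun q => q.1 ≠ q.2), (rf T q.1 : ℂ) * (rf T q.2 : ℂ) * c q.1 q.2 := by
  classical
  have h1 : ∑ m ∈ Nn, ∑ n ∈ Nn, (rf T m : ℂ) * (rf T n : ℂ) * c m n = ∑ q ∈ Nn ×ˢ Nn,
      (rf T q.1 : ℂ) * (rf T q.2 : ℂ) * c q.1 q.2 := by
    rw [Finset.sum_product]
  have h2 : ∑ q ∈ (Nn ×ˢ Nn).filter (fun q => ¬ q.1 ≠ q.2),
      (rf T q.1 : ℂ) * (rf T q.2 : ℂ) * c q.1 q.2 = ∑ n ∈ Nn, c n n := by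
    symm
    refine Finset.sum_bij (fun n _ => (n, n)) ?_ ?_ ?_ ?_
    · intro n hn
      rw [Finset.mem_filter, Finset.mem_product]
      exact ⟨⟨hn, hn⟩, by simp⟩
    · intro a _ b _ hab
      exact (Prod.mk.injEq _ _ _ _ ▸ hab).1
    · rintro ⟨a, b⟩ hab
      rw [Finset.mem_filter, Finset.mem_product] at hab
      obtain ⟨⟨ha, hb⟩, hne⟩ := hab
      simp only [ne_eq, not_not] at hne
      exact ⟨a, ha, by rw [hne]⟩
    · intro n hn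
      have h4 : (rf T n : ℂ) * (rf T n : ℂ) = 1 := by
        rw [← Complex.ofReal_mul, rf_mul_self (hN n hn), Complex.ofReal_one]
      simp only
      rw [h4, one_mul]
  rw [h1, ← Finset.sum_filter_add_sum_filter_not (Nn ×ˢ Nn) (fun q => q.1 ≠ q.2), h2, add_comm]

/-- the Hoelder step, abstractly -/
private theorem v1_holder {ι : Type*} (s : Finset ι) (X : ι → ℝ) (a : ι → ℝ) (η A B : ℝ) (hη : 0 < η)
    (hX : ∀ i ∈ s, 0 ≤ X i) (ha : ∀ i ∈ s, 0 ≤ a i)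
    (h1 : ∑ i ∈ s, a i ^ (1 + η) * X i ≤ A) (h2 : ∑ i ∈ s, X i ≤ B) :
    ∑ i ∈ s, a i * X i ≤ A ^ (1 / (1 + η)) * B ^ (η / (1 + η)) := by
  have hp : 0 < 1 + η := by linarith
  have hpq : Real.HolderConjugate (1 + η) ((1 + η) / η) := by
    rw [Real.holderConjugate_iff]
    constructor
    · linarith
    · rw [inv_div]
      field_simp
  have h3 := Real.inner_le_Lp_mul_Lq_of_nonneg s hpq
    (f := fun i => a i * X i ^ (1 / (1 + η))) (g := fun i => X i ^ (η / (1 + η)))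
    (fun i hi => mul_nonneg (ha i hi) (Real.rpow_nonneg (hX i hi) _))
    (fun i hi => Real.rpow_nonneg (hX i hi) _)
  have h4 : ∑ i ∈ s, a i * X i ^ (1 / (1 + η)) * X i ^ (η / (1 + η)) = ∑ i ∈ s, a i * X i := by
    refine Finset.sum_congr rfl fun i hi => ?_
    rw [mul_assoc, ← Real.rpow_add_of_nonneg (hX i hi) (by positivity) (by positivity)]
    have : 1 / (1 + η) + η / (1 + η) = 1 := by field_simp
    rw [this, Real.rpow_one]
  have h5 : ∑ i ∈ s, (a i * X i ^ (1 / (1 + η))) ^ (1 + η) = ∑ i ∈ s, a i ^ (1 + η) * X i := by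
    refine Finset.sum_congr rfl fun i hi => ?_
    rw [Real.mul_rpow (ha i hi) (Real.rpow_nonneg (hX i hi) _), ← Real.rpow_mul (hX i hi)]
    have : 1 / (1 + η) * (1 + η) = 1 := by field_simp
    rw [this, Real.rpow_one]
  have h6 : ∑ i ∈ s, (X i ^ (η / (1 + η))) ^ ((1 + η) / η) = ∑ i ∈ s, X i := by
    refine Finset.sum_congr rfl fun i hi => ?_
    rw [← Real.rpow_mul (hX i hi)]
    have : η / (1 + η) * ((1 + η) / η) = 1 := by field_simp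
    rw [this, Real.rpow_one]
  rw [h4, h5, h6] at h3
  refine h3.trans ?_
  have e1 : 1 / ((1 + η) / η) = η / (1 + η) := by rw [one_div_div]
  rw [e1]
  have n1 : 0 ≤ ∑ i ∈ s, a i ^ (1 + η) * X i :=
    Finset.sum_nonneg fun i hi => mul_nonneg (Real.rpow_nonneg (ha i hi) _) (hX i hi)
  have n2 : 0 ≤ ∑ i ∈ s, X i := Finset.sum_nonneg hX
  exact mul_le_mul (Real.rpow_le_rpow n1 h1 (by positivity)) (Real.rpow_le_rpow n2 h2 (by positivity))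
    (Real.rpow_nonneg n2 _) (Real.rpow_nonneg (n1.trans h1) _)

/-- `(x + y)^(2k) ≤ 4^k (x^(2k) + y^(2k)) / 2` -/
private theorem v1_add_pow (k : ℕ) (hk : 1 ≤ k) (x y : ℝ) (hx : 0 ≤ x) (hy : 0 ≤ y) :
    (x + y) ^ (2 * k) ≤ 4 ^ k * (x ^ (2 * k) + y ^ (2 * k)) / 2 := by
  have h1 := add_pow_le hx hy (2 * k)
  have h2 : (4 : ℝ) ^ k = 2 ^ (2 * k - 1) * 2 := by
    rw [← pow_succ]
    have : 2 * k - 1 + 1 = 2 * k := by omega
    rw [this, pow_mul]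
    norm_num
  rw [h2]
  refine h1.trans (le_of_eq ?_)
  ring

/-- V1 -/
theorem conc_gen (k : ℕ) (hk : 1 ≤ k) (S : Finset ℕ) (H Y : ℕ) (hH : 1 ≤ H) (hY : 1 ≤ Y) (Nn : Finset ℕ) (c : ℕ → ℕ → ℂ)
    (γ η L0 : ℝ) (w : ℕ) (hN : ∀ n ∈ Nn, 1 ≤ n ∧ n ≤ Y ∧ Squarefree n ∧ n.primeFactors ⊆ S)
    (hc : ∀ m ∈ Nn, ∀ n ∈ Nn, ‖c m n‖ ≤ H) (hd : ‖∑ n ∈ Nn, c n n‖ ^ 2 ≤ ((H : ℝ) * Y) ^ 2 * γ)
    (hP : ∑ q ∈ cp Y, ‖Psi Nn Y c q.1 q.2‖ ^ 2 ≤ ((H : ℝ) * Y) ^ 2 * γ) (hγ0 : 0 < γ) (hγ1 : γ ≤ 1)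
    (hη : 0 < η) (hη1 : η ≤ 1) (hw : (4 * (k : ℝ)) ^ (1 + η) ≤ w) (hL2 : 1 + Real.log Y ≤ L0) :
    av S (fun T => ‖∑ m ∈ Nn, ∑ n ∈ Nn, (rf T m : ℂ) * (rf T n : ℂ) * c m n‖ ^ (2 * k)) ≤
      (1000 * ((H : ℝ) * Y) ^ 2 * L0 ^ (2 * w + 5) * γ ^ (η / 2)) ^ k := by
  classical
  have hlY : 0 ≤ Real.log Y := Real.log_natCast_nonneg Y
  have hL0 : 1 ≤ L0 := by linarith
  have hH0 : (0 : ℝ) < H := by exact_mod_cast hH
  have hY0 : (0 : ℝ) < Y := by exact_mod_cast hY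
  have hN2 : ∀ n ∈ Nn, 1 ≤ n ∧ n ≤ Y := fun n hn => ⟨(hN n hn).1, (hN n hn).2.1⟩
  have hN3 : ∀ n ∈ Nn, 1 ≤ n ∧ n ≤ Y ∧ Squarefree n := fun n hn => ⟨(hN n hn).1, (hN n hn).2.1, (hN n hn).2.2.1⟩
  set Z : ℝ := 2 * ((H : ℝ) * Y) ^ 2 * L0 ^ (2 * w) with hZ
  have hL0p : 0 < L0 := by linarith
  have hZ0 : 0 < Z := by positivity
  have hg0 : 0 ≤ γ ^ (η / 2) := Real.rpow_nonneg hγ0.le _
  have hZL : ((H : ℝ) * Y) ^ 2 ≤ Z := by
    have h1 : 1 ≤ L0 ^ (2 * w) := one_le_pow₀ hL0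
    have h2 : 0 ≤ ((H : ℝ) * Y) ^ 2 := by positivity
    rw [hZ]
    nlinarith
  -- the diagonal
  set Dg : ℂ := ∑ n ∈ Nn, c n n with hDg
  have hdiag : ‖Dg‖ ^ (2 * k) ≤ (Z * γ ^ (η / 2)) ^ k := by
    rw [pow_mul]
    refine pow_le_pow_left₀ (sq_nonneg _) ?_ k
    have h5 : γ ≤ γ ^ (η / 2) := by
      have := Real.rpow_le_rpow_of_exponent_ge hγ0 hγ1 (show η / 2 ≤ 1 by linarith)
      rwa [Real.rpow_one] at this
    exact hd.trans (mul_le_mul hZL h5 hγ0.le hZ0.le)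
  -- the moment of the rest
  set Of : Finset ℕ → ℂ := fun T => ∑ q ∈ cp Y, (rf T q.1 : ℂ) * (rf T q.2 : ℂ) * Psi Nn Y c q.1 q.2 with hOf
  have hexp : ∀ T, ∑ m ∈ Nn, ∑ n ∈ Nn, (rf T m : ℂ) * (rf T n : ℂ) * c m n = Dg + Of T := by
    intro T
    rw [v1_expand Nn c T (fun n hn => (hN n hn).2.2.1), hOf]
    simp only
    rw [← regroup Y Nn hN3 c T]
  have hmom := pair_moment k hk S (cp Y) (fun q => Psi Nn Y c q.1 q.2)
    (by
      intro q hq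
      rw [cp, Finset.mem_filter] at hq
      exact ⟨hq.2.2.1, hq.2.2.2.1, hq.2.2.2.2⟩)
    (by
      intro q hq hne
      rw [cp, Finset.mem_filter] at hq
      have h1 : ((Finset.Icc 1 Y).filter (fun g => g * q.1 ∈ Nn ∧ g * q.2 ∈ Nn)).Nonempty := by
        rw [Finset.nonempty_iff_ne_empty]
        intro h0
        apply hne
        simp only [Psi]
        rw [h0, Finset.sum_empty]
      obtain ⟨g, hg⟩ := h1
      rw [Finset.mem_filter] at hg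
      have h2 := hN _ hg.2.1
      have h3 := hN _ hg.2.2
      refine ⟨?_, ?_⟩
      · exact (Nat.primeFactors_mono (dvd_mul_left q.1 g) (by omega)).trans h2.2.2.2
      · exact (Nat.primeFactors_mono (dvd_mul_left q.2 g) (by omega)).trans h3.2.2.2)
  have hoff : av S (fun T => ‖Of T‖ ^ (2 * k)) ≤ (Z * γ ^ (η / 2)) ^ k := by
    refine hmom.trans ?_
    refine pow_le_pow_left₀ (Finset.sum_nonneg fun q _ => by positivity) ?_ k
    -- first factor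
    have hpsi : ∀ q ∈ cp Y, ‖Psi Nn Y c q.1 q.2‖ ^ 2 ≤ ((H : ℝ) * Y) ^ 2 / ((max q.1 q.2 : ℕ) : ℝ) ^ 2 := by
      intro q hq
      rw [cp, Finset.mem_filter, Finset.mem_product, Finset.mem_Icc, Finset.mem_Icc] at hq
      have h1 := psi_le Y Nn hN2 c H hH0.le hc q.1 q.2 hq.1.1.1 hq.1.2.1
      have hm : (0 : ℝ) < ((max q.1 q.2 : ℕ) : ℝ) := by
        have : 0 < max q.1 q.2 := lt_of_lt_of_le hq.1.1.1 (le_max_left _ _)
        exact_mod_cast this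
      rw [le_div_iff₀ (by positivity), ← mul_pow]
      refine pow_le_pow_left₀ (by positivity) ?_ 2
      rw [mul_comm (H : ℝ)]
      exact h1
    have hF1 : ∑ q ∈ cp Y, ((4 * (k : ℝ)) ^ (om q.1 + om q.2)) ^ (1 + η) * ‖Psi Nn Y c q.1 q.2‖ ^ 2 ≤ Z := by
      have h1 : ∀ q ∈ cp Y, ((4 * (k : ℝ)) ^ (om q.1 + om q.2)) ^ (1 + η) * ‖Psi Nn Y c q.1 q.2‖ ^ 2 ≤
          ((H : ℝ) * Y) ^ 2 * ((w : ℝ) ^ (om q.1 + om q.2) / ((max q.1 q.2 : ℕ) : ℝ) ^ 2) := by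
        intro q hq
        have h2 : ((4 * (k : ℝ)) ^ (om q.1 + om q.2)) ^ (1 + η) ≤ (w : ℝ) ^ (om q.1 + om q.2) := by
          rw [← Real.rpow_natCast, ← Real.rpow_mul (by positivity), mul_comm (((om q.1 + om q.2 : ℕ)) : ℝ),
            Real.rpow_mul (by positivity), Real.rpow_natCast]
          exact pow_le_pow_left₀ (by positivity) hw _
        calc _ ≤ (w : ℝ) ^ (om q.1 + om q.2) * (((H : ℝ) * Y) ^ 2 / ((max q.1 q.2 : ℕ) : ℝ) ^ 2) :=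
              mul_le_mul h2 (hpsi q hq) (by positivity) (by positivity)
          _ = _ := by ring
      refine (Finset.sum_le_sum h1).trans ?_
      rw [← Finset.mul_sum]
      have h3 := omega_pairs w Y hY
      have h4 : (1 + Real.log Y) ^ (2 * w) ≤ L0 ^ (2 * w) := pow_le_pow_left₀ (by linarith) hL2 _
      calc ((H : ℝ) * Y) ^ 2 * _ ≤ ((H : ℝ) * Y) ^ 2 * (2 * (1 + Real.log Y) ^ (2 * w)) :=
            mul_le_mul_of_nonneg_left h3 (by positivity)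
        _ ≤ ((H : ℝ) * Y) ^ 2 * (2 * L0 ^ (2 * w)) := by
            refine mul_le_mul_of_nonneg_left ?_ (by positivity)
            linarith
        _ = _ := by rw [hZ]; ring
    -- second factor
    have hF2 : ∑ q ∈ cp Y, ‖Psi Nn Y c q.1 q.2‖ ^ 2 ≤ Z * γ :=
      hP.trans (mul_le_mul_of_nonneg_right hZL hγ0.le)
    have hH2 := v1_holder (cp Y) (fun q => ‖Psi Nn Y c q.1 q.2‖ ^ 2)
      (fun q => (4 * (k : ℝ)) ^ (om q.1 + om q.2)) η _ _ hη (fun q _ => by positivity)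
      (fun q _ => by positivity) hF1 hF2
    refine hH2.trans ?_
    rw [Real.mul_rpow hZ0.le hγ0.le, ← mul_assoc, ← Real.rpow_add hZ0]
    have e1 : 1 / (1 + η) + η / (1 + η) = 1 := by field_simp
    rw [e1, Real.rpow_one]
    refine mul_le_mul_of_nonneg_left ?_ hZ0.le
    refine Real.rpow_le_rpow_of_exponent_ge hγ0 hγ1 ?_
    rw [div_le_div_iff₀ (by norm_num) (by positivity)]
    nlinarith
  -- together
  have hsum : av S (fun T => ‖∑ m ∈ Nn, ∑ n ∈ Nn, (rf T m : ℂ) * (rf T n : ℂ) * c m n‖ ^ (2 * k)) ≤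
      4 ^ k / 2 * (‖Dg‖ ^ (2 * k) + av S (fun T => ‖Of T‖ ^ (2 * k))) := by
    unfold av
    have h1 : ∑ T ∈ S.powerset, ‖∑ m ∈ Nn, ∑ n ∈ Nn, (rf T m : ℂ) * (rf T n : ℂ) * c m n‖ ^ (2 * k) ≤
        ∑ T ∈ S.powerset, (4 ^ k / 2 * (‖Dg‖ ^ (2 * k) + ‖Of T‖ ^ (2 * k))) := by
      refine Finset.sum_le_sum fun T _ => ?_
      rw [hexp T]
      refine (pow_le_pow_left₀ (norm_nonneg _) (norm_add_le _ _) (2 * k)).trans ?_
      refine (v1_add_pow k hk _ _ (norm_nonneg _) (norm_nonneg _)).trans (le_of_eq ?_)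
      ring
    rw [← Finset.mul_sum, Finset.sum_add_distrib, Finset.sum_const, Finset.card_powerset, nsmul_eq_mul] at h1
    have h2 : (0 : ℝ) < 2 ^ S.card := by positivity
    rw [div_le_iff₀ h2]
    refine h1.trans (le_of_eq ?_)
    push_cast
    field_simp
  refine hsum.trans ?_
  have hL5 : L0 ^ (2 * w) ≤ L0 ^ (2 * w + 5) := pow_le_pow_right₀ hL0 (by omega)
  calc 4 ^ k / 2 * (‖Dg‖ ^ (2 * k) + av S (fun T => ‖Of T‖ ^ (2 * k)))
      ≤ 4 ^ k / 2 * ((Z * γ ^ (η / 2)) ^ k + (Z * γ ^ (η / 2)) ^ k) := by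
        refine mul_le_mul_of_nonneg_left (add_le_add hdiag hoff) (by positivity)
    _ = (4 * (Z * γ ^ (η / 2))) ^ k := by rw [mul_pow 4]; ring
    _ ≤ _ := by
        refine pow_le_pow_left₀ (mul_nonneg (by norm_num) (mul_nonneg hZ0.le hg0)) ?_ k
        rw [hZ]
        have h0 : 0 ≤ ((H : ℝ) * Y) ^ 2 * γ ^ (η / 2) := mul_nonneg (by positivity) hg0
        have h1 : ((H : ℝ) * Y) ^ 2 * γ ^ (η / 2) * L0 ^ (2 * w) ≤ ((H : ℝ) * Y) ^ 2 * γ ^ (η / 2) * L0 ^ (2 * w + 5) :=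
          mul_le_mul_of_nonneg_left hL5 h0
        have h2 : 0 ≤ ((H : ℝ) * Y) ^ 2 * γ ^ (η / 2) * L0 ^ (2 * w) := mul_nonneg h0 (by positivity)
        nlinarith

end Pool.Agent.Helper51.EA
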